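import Pool.Agent.Helper97.TN.St

/-!
# TN, module P6: Frobenius' density theorem for divisions
-/

set_option autoImplicit false

namespace Pool.Agent.Helper81.TN

open NumberField IsDedekindDomain Polynomial Filter Topology
open Pool.Agent.Helper95.TT Pool.Agent.Helper24.TF Pool.Agent.Helper97.TN
open scoped Classical

/-- P6: the functions with the mean value property form a subspace which contains the permutation characters -/
theorem hP6 (hA2 : StA2) (hG1 : StG1) (hP5 : StP5) : StP6 := by
  intro k L _ _ _ _ _ _ σ R hR hF φ hφ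
  haveI : Finite (L ≃ₐ[k] L) := inferInstance
  have hsum : ∀ s : ℝ, 1 < s → ∀ ψ : (L ≃ₐ[k] L) → ℝ,
      Summable (fun v : Pr k => ψ (σ v) * wt s v) := by
    intro s hs ψ
    obtain ⟨B, hB⟩ := (Set.finite_range (fun g : (L ≃ₐ[k] L) => |ψ g|)).bddAbove
    refine Summable.of_norm_bounded (g := fun v => B * |wt s v|)
      (((hA2 k).1 s hs).abs.mul_left B) ?_
    intro v
    rw [norm_mul]
    exact mul_le_mul_of_nonneg_right (hB ⟨σ v, rfl⟩) (norm_nonneg _)
  have havg_add : ∀ a b : (L ≃ₐ[k] L) → ℝ, avg (a + b) = avg a + avg b := by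
    intro a b
    unfold avg
    rw [← add_div]
    congr 1
    simp only [Pi.add_apply]
    exact finsum_add_distrib (Set.toFinite _) (Set.toFinite _)
  have havg_smul : ∀ (c : ℝ) (a : (L ≃ₐ[k] L) → ℝ), avg (c • a) = c * avg a := by
    intro c a
    unfold avg
    rw [← mul_div_assoc]
    congr 1
    simp only [Pi.smul_apply, smul_eq_mul]
    rw [← mul_finsum]
  let P : Submodule ℝ ((L ≃ₐ[k] L) → ℝ) :=
    { carrier := {ψ | Tendsto (fun s : ℝ => (s - 1) * ∑' v : Pr k, ψ (σ v) * wt s v) (𝓝[>] 1)
        (𝓝 (avg ψ))}
      add_mem' := by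
        intro a b ha hb
        simp only [Set.mem_ofPred_eq] at ha hb ⊢
        rw [havg_add]
        refine (ha.add hb).congr' ?_
        filter_upwards [self_mem_nhdsWithin] with s hs
        rw [← mul_add, ← (hsum s hs a).tsum_add (hsum s hs b)]
        congr 1
        refine tsum_congr fun v => ?_
        simp only [Pi.add_apply]
        ring
      zero_mem' := by
        simp only [Set.mem_ofPred_eq]
        have h0 : avg (0 : (L ≃ₐ[k] L) → ℝ) = 0 := by
          unfold avg
          simp
        rw [h0]
        simp
      smul_mem' := by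
        intro c a ha
        simp only [Set.mem_ofPred_eq] at ha ⊢
        rw [havg_smul]
        refine (ha.const_mul c).congr' ?_
        filter_upwards [self_mem_nhdsWithin] with s hs
        rw [mul_left_comm, ← tsum_mul_left]
        congr 1
        refine tsum_congr fun v => ?_
        simp only [Pi.smul_apply, smul_eq_mul]
        ring }
  exact hG1 (L ≃ₐ[k] L) P (fun Ω _ _ => hP5 k L σ R hR hF Ω) φ hφ

end Pool.Agent.Helper81.TN
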